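import Mathlib
import Pool.Agent.Q78.GW.Final
import Pool.Agent.TH3.IR.Proj

set_option autoImplicit false

/-!
# The Hilbert function of general fat points differs from the expected one by a bounded number

Let `n, m ≥ 1` and let `ν = binom (n + m - 2) (n - 1)` be the number of conditions by which a point
of multiplicity `m` exceeds a point of multiplicity `m - 1`. For ALL numbers `r` of points and ALL
degrees `d`, the value of the Hilbert function of `R / I^(m)` for `r` general points of `ℙⁿ` satisfies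

`min (binom (n + d) n) (r * binom (n + m - 1) n - binom ν 2) ≤ H_{n,r,m}(d)
  ≤ min (binom (n + d) n) (r * binom (n + m - 1) n)`,

and the right inequality is an equality unless `binom (n + d) n - r * binom (n + m - 1) n` lies
in a window which does not depend on `r ≥ ν` and `d`: the left end is `- binom ν 2`, and the right
end is `(ν - 1) (2 binom (n + m - 1) (n - 1) - ν - 2) / 2` for `r ≥ ν` points (and
`(ν - 1) binom (n + m - 1) n` for any number of points). For `n = 2` the two ends are
`± binom m 2`; the left one is the best possible one, by five points in degree `2 m`.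
-/

namespace Pool.Agent.Results.MP_b56c98_ag.DefectBound

open MvPolynomial
open scoped LinearAlgebra.Projectivization
open Pool.Agent.H350R3.MG Pool.Agent.TH3.IR

/-- The `m`-th symbolic power of the ideal of the points `P₁, …, P_r`. -/
noncomputable def symbolicPower {n r : ℕ} (m : ℕ) (P : Fin r → ℙ ℂ (Fin (n + 1) → ℂ)) :
    Ideal (MvPolynomial (Fin (n + 1)) ℂ) :=
  ⨅ i, primeIdeal (P i) ^ m

/-- The Hilbert function `dim R_d - dim J_d` of `R / J`. -/
noncomputable def hilbert {n : ℕ} (J : Ideal (MvPolynomial (Fin (n + 1)) ℂ)) (d : ℕ) : ℤ :=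
  (Module.finrank ℂ (homogeneousSubmodule (Fin (n + 1)) ℂ d) : ℤ) -
    Module.finrank ℂ (homogeneousSubmodule (Fin (n + 1)) ℂ d ⊓ Submodule.restrictScalars ℂ J :
      Submodule ℂ (MvPolynomial (Fin (n + 1)) ℂ))

/-- `h` is the value `H_{n,r,m}(d)` of the Hilbert function of `R / I^(m)` for `r` general points:
the value is `h` for all the `r`-tuples of points in a nonempty Zariski open set. -/
def IsGeneralHilbertValue (n r m d : ℕ) (h : ℤ) : Prop :=
  Generally (fun P : Fin r → ℙ ℂ (Fin (n + 1) → ℂ) => hilbert (symbolicPower m P) d = h)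

theorem forms_eq {E r m d : ℕ} (P : Fin r → Fin (E + 1) → ℂ)
    (hv : ∀ i, (Fin.cons 1 (P i) : Fin (E + 1 + 1) → ℂ) ≠ 0) :
    (homogeneousSubmodule (Fin (E + 1 + 1)) ℂ d ⊓ Submodule.restrictScalars ℂ
      (symbolicPower m fun i => Projectivization.mk ℂ (Fin.cons 1 (P i) : Fin (E + 1 + 1) → ℂ) (hv i)) :
      Submodule ℂ (MvPolynomial (Fin (E + 1 + 1)) ℂ)) =
    Pool.Agent.H932R5.Vd (E := E) d (fun _ => m) P := by
  unfold Pool.Agent.H932R5.Vd symbolicPower
  simp only [primeIdeal_cons]
  rfl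

theorem result (n r m d : ℕ) (hn : 1 ≤ n) (hm : 1 ≤ m) :
    ∃ h : ℤ, IsGeneralHilbertValue n r m d h ∧
      min ((n + d).choose n : ℤ)
        (r * ((n + m - 1).choose n : ℤ) - (((n + m - 2).choose (n - 1)).choose 2 : ℤ)) ≤ h ∧
      h ≤ min ((n + d).choose n : ℤ) (r * ((n + m - 1).choose n : ℤ)) ∧
      (((n + d).choose n : ℤ) - r * ((n + m - 1).choose n : ℤ) ≤
            - (((n + m - 2).choose (n - 1)).choose 2 : ℤ) ∨
          ((n + m - 2).choose (n - 1) ≤ r ∧
            (((n + m - 2).choose (n - 1) : ℤ) - 1) * (2 * ((n + m - 1).choose (n - 1) : ℤ) -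
                ((n + m - 2).choose (n - 1) : ℤ) - 2) ≤
              2 * (((n + d).choose n : ℤ) - r * ((n + m - 1).choose n : ℤ))) ∨
          (((n + m - 2).choose (n - 1) : ℤ) - 1) * ((n + m - 1).choose n : ℤ) <
            ((n + d).choose n : ℤ) - r * ((n + m - 1).choose n : ℤ) →
        h = min ((n + d).choose n : ℤ) (r * ((n + m - 1).choose n : ℤ))) := by
  obtain ⟨E, rfl⟩ : ∃ E, n = E + 1 := ⟨n - 1, by omega⟩
  obtain ⟨K0, i1, i2, P0, F, hP0, hF, hF'⟩ := Q78.GW.general_dim E r (fun _ => m) d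
  have e1 : E + 1 + m - 1 = m + E := by omega
  have e2 : E + 1 + m - 2 = m - 1 + E := by omega
  have e3 : E + 1 - 1 = E := by omega
  have e4 : E + 1 + d = d + E + 1 := by omega
  rw [e1, e2, e3, e4]
  obtain ⟨C, hC⟩ : ∃ C : ℤ, C = ((d + E + 1).choose (E + 1) : ℤ) := ⟨_, rfl⟩
  obtain ⟨S, hS⟩ : ∃ S : ℤ, S = r * ((m + E).choose (E + 1) : ℤ) := ⟨_, rfl⟩
  obtain ⟨x, hx⟩ : ∃ x : ℤ, x = (Module.finrank K0 ↥(Q78.GW.Lw d P0 (fun _ : Fin r => m)) : ℤ) :=
    ⟨_, rfl⟩
  have hx0 : 0 ≤ x := by
    rw [hx]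
    exact Nat.cast_nonneg _
  have hnv : Q78.GW.nv E (fun _ : Fin r => m) d = C - S := by
    unfold Q78.GW.nv
    rw [Finset.sum_const, Finset.card_univ, Fintype.card_fin, nsmul_eq_mul, hC, hS]
  have hxd := Q78.GW.dim_eq d P0 (fun _ : Fin r => m)
  have hhs := Q78.GW.hs_nonneg d P0 (fun _ : Fin r => m)
  rw [← hx, hnv] at hxd
  obtain ⟨b1, b2⟩ := Q78.GW.gen_bound hP0 (fun _ : Fin r => m) d {m}
    (fun _ _ => Or.inl (Finset.mem_singleton_self m))
  have hbd : Q78.GW.bd E {m} = (((m - 1 + E).choose E).choose 2 : ℤ) := by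
    unfold Q78.GW.bd
    rw [Finset.sum_singleton]
  rw [hbd, ← hx, hnv] at b1 b2
  have hmx : ∀ y : ℤ, C - max 0 (C - y) = min C y := by
    intro y
    rcases le_total C y with h | h
    · rw [max_eq_left (by linarith), min_eq_left h, sub_zero]
    · rw [max_eq_right (by linarith), min_eq_right h]
      ring
  rw [← hC, ← hS]
  refine ⟨C - x, ?_, ?_, ?_, ?_⟩
  · refine generally_of_affine F hF fun P hv hP => ?_
    unfold hilbert
    rw [forms_eq P hv, hF' P hP, ← hx, hC]
    congr 1
    have h1 : Module.finrank ℂ (homogeneousSubmodule (Fin (E + 1 + 1)) ℂ d) =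
        (d + (E + 1)).choose (E + 1) := Q78.GW.finrank_homog ℂ (E + 1) d
    rw [h1]
    rfl
  · by_cases h : x = 0
    · rw [h, sub_zero]
      exact min_le_left _ _
    · refine (min_le_right _ _).trans ?_
      have := b1 h
      linarith
  · refine le_min (by linarith) (by linarith)
  · intro h
    rw [← hmx]
    congr 1
    rcases h with h | ⟨h, h'⟩ | h
    · exact b2 h
    · rw [hx, ← hnv]
      refine Q78.GW.gen_uni hP0 hm rfl h ?_
      rw [hnv]
      exact h'
    · rw [hx, ← hnv]
      refine Q78.GW.gen_indep hP0 (fun _ : Fin r => m) d m (fun _ => le_rfl) ?_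
      rw [hnv]
      exact h

end Pool.Agent.Results.MP_b56c98_ag.DefectBound
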