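import Mathlib
import Pool.Agent.Q78.GW.Chain
import Pool.Agent.TH3.IR.Proj

set_option autoImplicit false

/-!
# Hilbert functions of general fat points and forms with larger multiplicities

Let `n, m ≥ 1`, `c ≥ 0`, let `r` be any number of points and `d` any degree, and suppose that there
is a nonzero form of degree `d` with multiplicity at least `m + c` at `r` general points of `ℙⁿ`
(this is so if `r * binom (n + m + c - 1) n < binom (n + d) n`). Let `D = binom (n + m - 1) n`,
`ν = binom (n + m - 2) (n - 1)`, and let `b` be the difference of `ν` and the larger one of the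
numbers `binom (c + n - 1) (n - 1)` and `c (r - 1) + 1` (and `b = 0` if the difference is negative).
Then `r D - binom (b + 1) 2 ≤ H_{n,r,m}(d) ≤ r D`. In particular `H_{n,r,m}(d) = r D` if
`c ≥ m - 1` or `c (r - 1) ≥ ν - 1`. So the degrees in which `m`-fold general points fail to impose
independent conditions are smaller than the initial degree of the symbolic power `I^(2m-1)`, and
smaller than that of `I^(m+1)` for at least `ν` points.
-/

namespace Pool.Agent.Results.MP_b56c98_ag.DoublingBound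

open MvPolynomial
open scoped LinearAlgebra.Projectivization
open Pool.Agent.H350R3.MG Pool.Agent.TH3.IR

/-- The `m`-th symbolic power of the ideal of the points `P₁, …, P_r`. -/
noncomputable def symbolicPower {n r : ℕ} (m : ℕ) (P : Fin r → ℙ ℂ (Fin (n + 1) → ℂ)) :
    Ideal (MvPolynomial (Fin (n + 1)) ℂ) :=
  ⨅ i, primeIdeal (P i) ^ m

/-- The Hilbert function `dim R_d - dim J_d` of `R / J`. -/
noncomputable def hilbert {n : ℕ} (J : Ideal (MvPolynomial (Fin (n + 1)) ℂ)) (d : ℕ) : ℤ :=
  (Module.finrank ℂ (homogeneousSubmodule (Fin (n + 1)) ℂ d) : ℤ) -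
    Module.finrank ℂ (homogeneousSubmodule (Fin (n + 1)) ℂ d ⊓ Submodule.restrictScalars ℂ J :
      Submodule ℂ (MvPolynomial (Fin (n + 1)) ℂ))

/-- `h` is the value `H_{n,r,m}(d)` of the Hilbert function of `R / I^(m)` for `r` general points:
the value is `h` for all the `r`-tuples of points in a nonempty Zariski open set. -/
def IsGeneralHilbertValue (n r m d : ℕ) (h : ℤ) : Prop :=
  Generally (fun P : Fin r → ℙ ℂ (Fin (n + 1) → ℂ) => hilbert (symbolicPower m P) d = h)

theorem forms_eq {E r m d : ℕ} (P : Fin r → Fin (E + 1) → ℂ)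
    (hv : ∀ i, (Fin.cons 1 (P i) : Fin (E + 1 + 1) → ℂ) ≠ 0) :
    (homogeneousSubmodule (Fin (E + 1 + 1)) ℂ d ⊓ Submodule.restrictScalars ℂ
      (symbolicPower m fun i => Projectivization.mk ℂ (Fin.cons 1 (P i) : Fin (E + 1 + 1) → ℂ) (hv i)) :
      Submodule ℂ (MvPolynomial (Fin (E + 1 + 1)) ℂ)) =
    Pool.Agent.H932R5.Vd (E := E) d (fun _ => m) P := by
  unfold Pool.Agent.H932R5.Vd symbolicPower
  simp only [primeIdeal_cons]
  rfl

/-- The number `b`. -/
def defect (n r m c : ℕ) : ℕ :=
  (n + m - 2).choose (n - 1) - max ((c + n - 1).choose (n - 1)) (c * (r - 1) + 1)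

theorem result (n r m c d : ℕ) (hn : 1 ≤ n) (hm : 1 ≤ m)
    (hyp : ¬ IsGeneralHilbertValue n r (m + c) d ((n + d).choose n) ∨
      r * (n + m + c - 1).choose n < (n + d).choose n) :
    ∃ h : ℤ, IsGeneralHilbertValue n r m d h ∧
      (r * ((n + m - 1).choose n : ℤ) - ((defect n r m c + 1).choose 2 : ℤ)) ≤ h ∧
      h ≤ r * ((n + m - 1).choose n : ℤ) ∧
      (m ≤ c + 1 ∨ (n + m - 2).choose (n - 1) ≤ c * (r - 1) + 1 →
        h = r * ((n + m - 1).choose n : ℤ)) := by
  obtain ⟨E, rfl⟩ : ∃ E, n = E + 1 := ⟨n - 1, by omega⟩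
  obtain ⟨K0, i1, i2, P0, F, hP0, hF, hF'⟩ := Q78.GW.general_dim E r (fun _ => m) d
  obtain ⟨K1, i3, i4, P1, G, hP1, hG, hG'⟩ := Q78.GW.general_dim E r (fun _ => m + c) d
  have e1 : E + 1 + m - 1 = m + E := by omega
  have e2 : E + 1 + m - 2 = m - 1 + E := by omega
  have e3 : E + 1 - 1 = E := by omega
  have e4 : E + 1 + d = d + E + 1 := by omega
  have e5 : E + 1 + m + c - 1 = m + c + E := by omega
  have e6 : c + (E + 1) - 1 = c + E := by omega
  have hval : ∀ (w : ℕ) (x : ℕ) (H : MvPolynomial (Fin r × Fin (E + 1)) ℂ), H ≠ 0 →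
      (∀ P : Fin r → Fin (E + 1) → ℂ,
        MvPolynomial.eval (fun q : Fin r × Fin (E + 1) => P q.1 q.2) H ≠ 0 →
        Module.finrank ℂ ↥(Pool.Agent.H932R5.Vd (E := E) d (fun _ => w) P) = x) →
      IsGeneralHilbertValue (E + 1) r w d (((d + E + 1).choose (E + 1) : ℤ) - x) := by
    intro w x H hH hH'
    refine generally_of_affine H hH fun P hv hP => ?_
    unfold hilbert
    rw [forms_eq P hv, hH' P hP]
    congr 1
    have h1 : Module.finrank ℂ (homogeneousSubmodule (Fin (E + 1 + 1)) ℂ d) =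
        (d + (E + 1)).choose (E + 1) := Q78.GW.finrank_homog ℂ (E + 1) d
    rw [h1]
    rfl
  have hne : Q78.GW.Lw d P0 (fun _ : Fin r => m + c) ≠ ⊥ := by
    intro h0
    have h1 : Module.finrank K0 ↥(Q78.GW.Lw d P0 (fun _ : Fin r => m + c)) = 0 := by
      rw [h0, finrank_bot]
    rcases hyp with h2 | h2
    · apply h2
      have h3 := hval (m + c) 0 G hG (fun P hP => by
        rw [hG' P hP, Q78.GW.gen_eq hP1 hP0 _ d, h1])
      rw [e4]
      simpa using h3
    · have h3 := Q78.GW.dim_eq d P0 (fun _ : Fin r => m + c)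
      have h4 := Q78.GW.hs_nonneg d P0 (fun _ : Fin r => m + c)
      rw [h1] at h3
      unfold Q78.GW.nv at h3
      rw [Finset.sum_const, Finset.card_univ, Fintype.card_fin, nsmul_eq_mul] at h3
      rw [e4, e5] at h2
      have h5 : ((r * (m + c + E).choose (E + 1) : ℕ) : ℤ) <
          ((d + E + 1).choose (E + 1) : ℕ) := by exact_mod_cast h2
      push_cast at h3 h5
      linarith
  have hd := Q78.GW.dim_eq d P0 (fun _ : Fin r => m)
  have hnn := Q78.GW.hs_nonneg d P0 (fun _ : Fin r => m)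
  have hb := Q78.GW.hs_le_uni hP0 hm hne
  have hnv : Q78.GW.nv E (fun _ : Fin r => m) d =
      ((d + E + 1).choose (E + 1) : ℤ) - r * ((m + E).choose (E + 1) : ℤ) := by
    unfold Q78.GW.nv
    rw [Finset.sum_const, Finset.card_univ, Fintype.card_fin, nsmul_eq_mul]
  have hdef : defect (E + 1) r m c =
      (m - 1 + E).choose E - max ((c + E).choose E) (c * (r - 1) + 1) := by
    unfold defect
    rw [e2, e3, e6]
  rw [e1, e2, e3, hdef]
  rw [hnv] at hd
  refine ⟨_, hval m _ F hF hF', ?_, ?_, ?_⟩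
  · rw [hd]
    linarith
  · rw [hd]
    linarith
  · intro h
    have h1 : (m - 1 + E).choose E - max ((c + E).choose E) (c * (r - 1) + 1) = 0 := by
      rcases h with h | h
      · have h2 : (m - 1 + E).choose E ≤ (c + E).choose E := Nat.choose_le_choose _ (by omega)
        exact Nat.sub_eq_zero_of_le (h2.trans (le_max_left _ _))
      · exact Nat.sub_eq_zero_of_le (h.trans (le_max_right _ _))
    rw [h1] at hb
    have h2 : (((0 + 1 : ℕ).choose 2 : ℕ) : ℤ) = 0 := by norm_num
    have h3 : Q78.GW.hs d P0 (fun _ : Fin r => m) ≤ 0 := by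
      refine hb.trans (le_of_eq ?_)
      exact_mod_cast h2
    rw [hd]
    linarith

end Pool.Agent.Results.MP_b56c98_ag.DoublingBound
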